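import Mathlib
set_option autoImplicit false

namespace Pool.Agent.ArtinPrime

section Core
open Finset

lemma E_mul {Q : Type*} [CommRing Q] (h4 : (4 : Q) = 0) (a b : Q) :
    (1 + 2 * a) * (1 + 2 * b) = 1 + 2 * (a + b) := by
  linear_combination (a * b) * h4

lemma sum_shift {Q : Type*} [AddCommGroup Q] (m : ℕ) (f : ℕ → Q) (hf : ∀ n, f (n + m) = f n)
    (i : ℕ) : ∑ j ∈ range m, f (j + i) = ∑ j ∈ range m, f j := by
  induction i with
  | zero => rfl
  | succ i ih =>
    rw [← ih]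
    have h1 : ∑ j ∈ range (m + 1), f (j + i) = ∑ j ∈ range m, f (j + (i + 1)) + f (0 + i) := by
      rw [Finset.sum_range_succ']
      congr 1
      apply Finset.sum_congr rfl
      intro j _
      congr 1
      ring
    have h2 : ∑ j ∈ range (m + 1), f (j + i) = ∑ j ∈ range m, f (j + i) + f (m + i) := by
      rw [Finset.sum_range_succ]
    have h3 : f (m + i) = f (0 + i) := by rw [add_comm, hf, zero_add]
    rw [h1, h3] at h2
    exact add_right_cancel h2

/-- the monomial in the conjugates `s j, s (j+1), …` -/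
def Mon {Q : Type*} [CommRing Q] (s : ℕ → Q) (j : ℕ) : Q :=
  s j ^ 3 * s (j + 1) * s (j + 2) * s (j + 6) * s (j + 9) * s (j + 12) * s (j + 15) *
    s (j + 18) * s (j + 21) * s (j + 23) ^ 2

lemma mon_mul {Q : Type*} [CommRing Q] (s t : ℕ → Q) (j : ℕ) :
    Mon (fun n => s n * t n) j = Mon s j * Mon t j := by
  unfold Mon
  ring

lemma mon_tau {Q : Type*} [CommRing Q] (τ : Q) (j : ℕ) :
    Mon (fun n => τ ^ (2 ^ n)) j = (τ ^ 19173961) ^ (2 ^ j) := by
  have hN : 2 ^ j * 3 + 2 ^ (j + 1) + 2 ^ (j + 2) + 2 ^ (j + 6) + 2 ^ (j + 9) + 2 ^ (j + 12)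
      + 2 ^ (j + 15) + 2 ^ (j + 18) + 2 ^ (j + 21) + 2 ^ (j + 23) * 2
      = 19173961 * 2 ^ j := by
    simp only [pow_add]
    generalize (2 ^ j : ℕ) = q
    omega
  rw [← pow_mul τ 19173961 (2 ^ j), ← hN]
  rw [pow_add, pow_add, pow_add, pow_add, pow_add, pow_add, pow_add, pow_add, pow_add, pow_mul,
    pow_mul]
  rfl

lemma mon_E {Q : Type*} [CommRing Q] (h4 : (4 : Q) = 0) (y : ℕ → Q) (j : ℕ) :
    Mon (fun n => 1 + 2 * y n) j =
      (1 + 2 * (y j + y (j + 1) + y (j + 2) + y (j + 6) + y (j + 9)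
        + y (j + 12) + y (j + 15) + y (j + 18) + y (j + 21))) := by
  unfold Mon
  have h3 : (1 + 2 * y j) ^ 3 = 1 + 2 * y j := by
    linear_combination (y j + 3 * y j ^ 2 + 2 * y j ^ 3) * h4
  have h2 : (1 + 2 * y (j + 23)) ^ 2 = 1 := by
    linear_combination (y (j + 23) + y (j + 23) ^ 2) * h4
  rw [h3, h2, mul_one]
  simp only [E_mul h4]

lemma mon_eq {Q : Type*} [CommRing Q] (h4 : (4 : Q) = 0) (τ : Q) (y : ℕ → Q) (j : ℕ) :
    Mon (fun n => τ ^ (2 ^ n) * (1 + 2 * y n)) j =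
      (τ ^ 19173961) ^ (2 ^ j) * (1 + 2 * (y j + y (j + 1) + y (j + 2) + y (j + 6) + y (j + 9)
        + y (j + 12) + y (j + 15) + y (j + 18) + y (j + 21))) := by
  rw [mon_mul (fun n => τ ^ (2 ^ n)) (fun n => 1 + 2 * y n) j, mon_tau, mon_E h4]

lemma core_sum {Q : Type*} [CommRing Q] (h4 : (4 : Q) = 0) (u : Q) (hu : u ^ 7 = 1) (y : ℕ → Q)
    (hy : ∀ n, y (n + 27) = y n) :
    ∑ j ∈ range 27, u ^ (2 ^ j) * (1 + 2 * (y j + y (j + 1) + y (j + 2) + y (j + 6) + y (j + 9)
        + y (j + 12) + y (j + 15) + y (j + 18) + y (j + 21))) =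
      (u + u ^ 2 + u ^ 4) * (1 + 2 * ∑ j ∈ range 27, y j) := by
  set v : ℕ → Q := fun j => u ^ (2 ^ j) with hv
  have hv3 : ∀ n, v (n + 3) = v n := by
    intro n
    simp only [hv]
    rw [pow_add 2 n 3, pow_mul]
    have : (u ^ 2 ^ n) ^ 2 ^ 3 = (u ^ 2 ^ n) * (u ^ 7) ^ (2 ^ n) := by ring
    rw [this, hu]
    simp
  have hv27 : ∀ n, v (n + 27) = v n := by
    intro n
    have : n + 27 = n + 3 + 3 + 3 + 3 + 3 + 3 + 3 + 3 + 3 := by ring
    rw [this]
    simp only [hv3]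
  have hT : ∀ n, v n + v (n + 1) + v (n + 2) = u + u ^ 2 + u ^ 4 := by
    intro n
    induction n with
    | zero => simp [hv]
    | succ n ih =>
      rw [← ih]
      have e1 : n + 1 + 1 = n + 2 := by ring
      have e2 : n + 1 + 2 = n + 3 := by ring
      rw [e1, e2, hv3]
      ring
  set A : Q := ∑ j ∈ range 27, v j * y j with hA
  set B : Q := ∑ j ∈ range 27, v (j + 1) * y j with hB
  set C : Q := ∑ j ∈ range 27, v (j + 2) * y j with hC
  have hshift : ∀ i, v i = v i → ∀ (w : ℕ → Q), (∀ n, w (n + 27) = w n) →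
      ∑ j ∈ range 27, w (j + i) = ∑ j ∈ range 27, w j := by
    intro i _ w hw
    exact sum_shift 27 w hw i
  have s0 : ∀ i, (∀ j, v (j + i) = v j) → ∑ j ∈ range 27, v j * y (j + i) = A := by
    intro i hi
    have : ∑ j ∈ range 27, v j * y (j + i) = ∑ j ∈ range 27, v (j + i) * y (j + i) := by
      apply Finset.sum_congr rfl
      intro j _
      rw [hi]
    rw [this]
    exact sum_shift 27 (fun n => v n * y n) (by intro n; simp only [hv27, hy]) i
  have s1 : ∑ j ∈ range 27, v j * y (j + 1) = C := by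
    have : ∑ j ∈ range 27, v j * y (j + 1) = ∑ j ∈ range 27, v (j + 1 + 2) * y (j + 1) := by
      apply Finset.sum_congr rfl
      intro j _
      have : j + 1 + 2 = j + 3 := by ring
      rw [this, hv3]
    rw [this]
    exact sum_shift 27 (fun n => v (n + 2) * y n)
      (by intro n; simp only [hy]; rw [show n + 27 + 2 = n + 2 + 27 by ring, hv27]) 1
  have s2 : ∑ j ∈ range 27, v j * y (j + 2) = B := by
    have : ∑ j ∈ range 27, v j * y (j + 2) = ∑ j ∈ range 27, v (j + 2 + 1) * y (j + 2) := by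
      apply Finset.sum_congr rfl
      intro j _
      have : j + 2 + 1 = j + 3 := by ring
      rw [this, hv3]
    rw [this]
    exact sum_shift 27 (fun n => v (n + 1) * y n)
      (by intro n; simp only [hy]; rw [show n + 27 + 1 = n + 1 + 27 by ring, hv27]) 2
  have s6 := s0 6 (by intro j; rw [show j + 6 = j + 3 + 3 by ring]; simp only [hv3])
  have s9 := s0 9 (by intro j; rw [show j + 9 = j + 3 + 3 + 3 by ring]; simp only [hv3])
  have s12 := s0 12 (by intro j; rw [show j + 12 = j + 3 + 3 + 3 + 3 by ring]; simp only [hv3])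
  have s15 := s0 15 (by intro j; rw [show j + 15 = j + 3 + 3 + 3 + 3 + 3 by ring]; simp only [hv3])
  have s18 := s0 18
    (by intro j; rw [show j + 18 = j + 3 + 3 + 3 + 3 + 3 + 3 by ring]; simp only [hv3])
  have s21 := s0 21
    (by intro j; rw [show j + 21 = j + 3 + 3 + 3 + 3 + 3 + 3 + 3 by ring]; simp only [hv3])
  have hABC : A + B + C = (u + u ^ 2 + u ^ 4) * ∑ j ∈ range 27, y j := by
    rw [hA, hB, hC, ← Finset.sum_add_distrib, ← Finset.sum_add_distrib, Finset.mul_sum]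
    apply Finset.sum_congr rfl
    intro j _
    rw [← hT j]
    ring
  have hsumv : ∑ j ∈ range 27, v j = 9 * (u + u ^ 2 + u ^ 4) := by
    have h0 := hT 0; have h3 := hT 3; have h6 := hT 6; have h9 := hT 9; have h12 := hT 12
    have h15 := hT 15; have h18 := hT 18; have h21 := hT 21; have h24 := hT 24
    simp only [Finset.sum_range_succ, Finset.sum_range_zero]
    norm_num at h0 h3 h6 h9 h12 h15 h18 h21 h24
    linear_combination h0 + h3 + h6 + h9 + h12 + h15 + h18 + h21 + h24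
  have hexp : ∑ j ∈ range 27, v j * (1 + 2 * (y j + y (j + 1) + y (j + 2) + y (j + 6) + y (j + 9)
        + y (j + 12) + y (j + 15) + y (j + 18) + y (j + 21))) =
      ∑ j ∈ range 27, v j + 2 * (∑ j ∈ range 27, v j * y j + ∑ j ∈ range 27, v j * y (j + 1)
        + ∑ j ∈ range 27, v j * y (j + 2) + ∑ j ∈ range 27, v j * y (j + 6)
        + ∑ j ∈ range 27, v j * y (j + 9) + ∑ j ∈ range 27, v j * y (j + 12)
        + ∑ j ∈ range 27, v j * y (j + 15) + ∑ j ∈ range 27, v j * y (j + 18)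
        + ∑ j ∈ range 27, v j * y (j + 21)) := by
    simp only [← Finset.sum_add_distrib, Finset.mul_sum]
    apply Finset.sum_congr rfl
    intro j _
    ring
  rw [hexp, s1, s2, s6, s9, s12, s15, s18, s21, hsumv]
  linear_combination 2 * hABC + (2 * (u + u ^ 2 + u ^ 4) + 3 * A) * h4

lemma T_ne_zero {Q : Type*} [CommRing Q] (h4 : (4 : Q) = 0) (h2 : (2 : Q) ≠ 0) (u : Q)
    (hu : u ^ 7 = 1) (hu1 : u = 1 ∨ IsUnit (u - 1)) : u + u ^ 2 + u ^ 4 ≠ 0 := by
  intro ht
  rcases hu1 with h | h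
  · subst h
    apply h2
    linear_combination (-2) * ht + 2 * h4
  · have hPhi : 1 + u + u ^ 2 + u ^ 3 + u ^ 4 + u ^ 5 + u ^ 6 = 0 := by
      apply h.mul_left_cancel
      linear_combination hu
    apply h2
    linear_combination (-(u + u ^ 2 + u ^ 4) - 1) * ht + u * hu + 2 * hPhi

/-- the key statement: the trace of the monomial is nonzero modulo `4` -/
lemma core {Q : Type*} [CommRing Q] (h4 : (4 : Q) = 0) (h2 : (2 : Q) ≠ 0) (τ : Q)
    (hτ : (τ ^ 19173961) ^ 7 = 1) (hτ1 : τ ^ 19173961 = 1 ∨ IsUnit (τ ^ 19173961 - 1))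
    (y : ℕ → Q) (hy : ∀ n, y (n + 27) = y n) :
    ∑ j ∈ range 27, Mon (fun n => τ ^ (2 ^ n) * (1 + 2 * y n)) j ≠ 0 := by
  intro h
  simp only [mon_eq h4] at h
  rw [core_sum h4 _ hτ y hy] at h
  apply T_ne_zero h4 h2 _ hτ hτ1
  set Y := ∑ j ∈ range 27, y j
  set T := τ ^ 19173961 + (τ ^ 19173961) ^ 2 + (τ ^ 19173961) ^ 4
  have : T = T * (1 + 2 * Y) * (1 + 2 * Y) := by
    linear_combination (- T * (Y + Y ^ 2)) * h4
  rw [this, h, zero_mul]

end Core
end Pool.Agent.ArtinPrime
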