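import Mathlib
import Pool.Agent.Lib.ArtinPrime.Witt
set_option autoImplicit false

namespace Pool.Agent.ArtinPrime

open Finset MvPolynomial

noncomputable section Form

/-- an `𝔽₂`-basis of the field with `2^27` elements -/
def bas : Module.Basis (Fin 27) (ZMod 2) kk :=
  Module.finBasisOfFinrankEq (ZMod 2) kk (GaloisField.finrank 2 (by norm_num))

def xi (i : Fin 27) : W := tch (bas i)

def LL (j : ℕ) : MvPolynomial (Fin 27) W := ∑ i, C ((sig^[j]) (xi i)) * X i

def HH : MvPolynomial (Fin 27) W := ∑ j ∈ range 27, Mon LL j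

lemma map_LL (j : ℕ) : MvPolynomial.map sig (LL j) = LL (j + 1) := by
  unfold LL
  rw [map_sum]
  apply Finset.sum_congr rfl
  intro i _
  rw [map_mul, map_C, map_X, Function.iterate_succ_apply']

lemma LL_27 (j : ℕ) : LL (j + 27) = LL j := by
  unfold LL
  apply Finset.sum_congr rfl
  intro i _
  rw [Function.iterate_add_apply, sig_27]

lemma map_Mon {A B : Type*} [CommRing A] [CommRing B] (f : A →+* B) (s : ℕ → A) (j : ℕ) :
    f (Mon s j) = Mon (fun n => f (s n)) j := by
  unfold Mon
  simp only [map_mul, map_pow]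

lemma map_HH : MvPolynomial.map sig HH = HH := by
  unfold HH
  rw [map_sum]
  simp only [map_Mon, map_LL]
  have h : ∀ j, Mon (fun n => LL (n + 1)) j = Mon LL (j + 1) := by
    intro j
    unfold Mon
    simp only [Nat.add_right_comm]
  simp only [h]
  apply sum_shift 27 (fun j => Mon LL j) _ 1
  intro n
  unfold Mon
  have h2 : ∀ i, n + 27 + i = n + i + 27 := by intro i; ring
  simp only [h2, LL_27]

lemma LL_hom (j : ℕ) : (LL j).IsHomogeneous 1 := by
  unfold LL
  apply IsHomogeneous.sum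
  intro i _
  simpa using (isHomogeneous_C (Fin 27) ((sig^[j]) (xi i))).mul (isHomogeneous_X W i)

lemma HH_hom : HH.IsHomogeneous 13 := by
  unfold HH
  apply IsHomogeneous.sum
  intro j _
  unfold Mon
  have h := fun j => LL_hom j
  exact ((((((((((h j).pow 3).mul (h (j + 1))).mul (h (j + 2))).mul (h (j + 6))).mul
    (h (j + 9))).mul (h (j + 12))).mul (h (j + 15))).mul (h (j + 18))).mul (h (j + 21))).mul
    ((h (j + 23)).pow 2)

lemma coeff_HH_fixed (m : Fin 27 →₀ ℕ) : sig (coeff m HH) = coeff m HH := by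
  rw [← MvPolynomial.coeff_map, map_HH]

lemma exists_zz : ∃ z : (Fin 27 →₀ ℕ) → ℤ, ∀ m, (4 : W) ∣ coeff m HH - (z m : W) :=
  ⟨fun m => (fixed_int _ (coeff_HH_fixed m)).choose,
    fun m => (fixed_int _ (coeff_HH_fixed m)).choose_spec⟩

lemma eval_LL (a : Fin 27 → ℤ) (j : ℕ) :
    eval (fun i => (a i : W)) (LL j) = (sig^[j]) (∑ i, xi i * (a i : W)) := by
  unfold LL
  rw [map_sum]
  have e1 : ∀ (n : ℕ) (a c : W), (sig^[n]) (a * c) = (sig^[n]) a * (sig^[n]) c := fun n a c =>
      iterate_map_mul sig n a c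
  have e3 : ∀ (n : ℕ) (z : ℤ), (sig^[n]) (z : W) = z := fun n z =>
    Function.iterate_fixed (map_intCast sig z) n
  have e5 : (sig^[j]) (∑ i, xi i * (a i : W)) = ∑ i, (sig^[j]) (xi i * (a i : W)) := by
    rw [← RingHom.coe_pow, map_sum]
  rw [e5]
  apply Finset.sum_congr rfl
  intro i _
  rw [map_mul, eval_C, eval_X, e1, e3]

lemma eval_HH (a : Fin 27 → ℤ) :
    eval (fun i => (a i : W)) HH =
      ∑ j ∈ range 27, Mon (fun n => (sig^[n]) (∑ i, xi i * (a i : W))) j := by
  unfold HH
  rw [map_sum]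
  apply Finset.sum_congr rfl
  intro j _
  rw [map_Mon]
  simp only [eval_LL]

lemma coeff0_lin (a : Fin 27 → ℤ) (h : (∑ i, xi i * (a i : W)).coeff 0 = 0) :
    ∀ i, (2 : ℤ) ∣ a i := by
  have h1 : (WittVector.constantCoeff : W →+* kk) (∑ i, xi i * (a i : W)) = 0 := h
  rw [map_sum] at h1
  have h2 : ∑ i, ((a i : ZMod 2)) • bas i = 0 := by
    rw [← h1]
    apply Finset.sum_congr rfl
    intro i _
    rw [map_mul, map_intCast]
    have : (WittVector.constantCoeff : W →+* kk) (xi i) = bas i := tch_coeff0 _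
    rw [this, mul_comm, Algebra.smul_def]
    simp
  have h3 := Fintype.linearIndependent_iff.mp bas.linearIndependent (fun i => (a i : ZMod 2)) h2
  intro i
  have := h3 i
  rwa [ZMod.intCast_zmod_eq_zero_iff_dvd] at this

theorem G_exists : ∃ G : MvPolynomial (Fin 27) ℤ, G.IsHomogeneous 13 ∧
    ∀ a : Fin 27 → ℤ, (4 : ℤ) ∣ eval a G → ∀ i, (2 : ℤ) ∣ a i := by
  obtain ⟨z, hz⟩ := exists_zz
  refine ⟨∑ m ∈ HH.support, monomial m (z m), ?_, ?_⟩
  · apply IsHomogeneous.sum
    intro m hm
    apply isHomogeneous_monomial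
    have := HH_hom (mem_support_iff.mp hm)
    rw [Finsupp.degree_eq_weight_one]
    exact this
  · intro a ha
    have hcong : (4 : W) ∣ eval (fun i => (a i : W)) HH -
        ((eval a (∑ m ∈ HH.support, monomial m (z m)) : ℤ) : W) := by
      rw [eval_eq, map_sum]
      push_cast
      rw [← Finset.sum_sub_distrib]
      apply Finset.dvd_sum
      intro m _
      obtain ⟨c, hc⟩ := hz m
      refine ⟨c * ∏ i ∈ m.support, (a i : W) ^ m i, ?_⟩
      rw [eval_monomial, Finsupp.prod]
      push_cast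
      linear_combination (∏ i ∈ m.support, (a i : W) ^ m i) * hc
    have h4 : (4 : W) ∣ ((eval a (∑ m ∈ HH.support, monomial m (z m)) : ℤ) : W) := by
      obtain ⟨c, hc⟩ := ha
      rw [hc]
      push_cast
      exact Dvd.intro _ rfl
    have h5 : (4 : W) ∣ eval (fun i => (a i : W)) HH := by
      have := dvd_add hcong h4
      rwa [sub_add_cancel] at this
    rw [eval_HH] at h5
    by_contra hcon
    apply witt_core _ _ h5
    intro h0
    exact hcon (coeff0_lin a h0)

end Form

end Pool.Agent.ArtinPrime
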