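import Mathlib
import Pool.Agent.Lib.ArtinPrime.Form
set_option autoImplicit false

namespace Pool.Agent.ArtinPrime

open Finset MvPolynomial

noncomputable section Final

/-- scaling of a homogeneous polynomial -/
lemma hom_scale {ι R : Type*} [CommRing R] (G : MvPolynomial ι R) (n : ℕ)
    (hG : G.IsHomogeneous n) (c : R) (a : ι → R) :
    eval (fun i => c * a i) G = c ^ n * eval a G := by
  rw [eval_eq, eval_eq, Finset.mul_sum]
  apply Finset.sum_congr rfl
  intro m hm
  have hd : ∑ i ∈ m.support, m i = n := by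
    have h1 := hG (mem_support_iff.mp hm)
    have h2 : m.degree = n := by
      rw [Finsupp.degree_eq_weight_one]; exact h1
    rw [← h2]
    rfl
  have : ∏ i ∈ m.support, (c * a i) ^ m i = c ^ n * ∏ i ∈ m.support, a i ^ m i := by
    simp only [mul_pow]
    rw [Finset.prod_mul_distrib, Finset.prod_pow_eq_pow_sum, hd]
  rw [this]
  ring

theorem N_exists : ∃ N : MvPolynomial (Fin 13) ℤ, N.IsHomogeneous 13 ∧
    ∀ a : Fin 13 → ℤ, (2 : ℤ) ∣ eval a N → ∀ i, (2 : ℤ) ∣ a i := by
  classical
  refine ⟨∑ S ∈ (univ : Finset (Fin 13)).powerset,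
    if h : S.Nonempty then (∏ i ∈ S, X i) * X (S.min' h) ^ (13 - S.card) else 0, ?_, ?_⟩
  · apply IsHomogeneous.sum
    intro S _
    split_ifs with h
    · have h1 : (∏ i ∈ S, (X i : MvPolynomial (Fin 13) ℤ)).IsHomogeneous (∑ i ∈ S, 1) :=
        IsHomogeneous.prod S _ _ (fun i _ => isHomogeneous_X ℤ i)
      have h2 : ((X (S.min' h) : MvPolynomial (Fin 13) ℤ) ^ (13 - S.card)).IsHomogeneous
          (13 - S.card) := isHomogeneous_X_pow _ _
      have h3 := h1.mul h2
      have hc : S.card ≤ 13 := by simpa using Finset.card_le_univ S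
      have h4 : ∑ i ∈ S, 1 + (13 - S.card) = 13 := by
        rw [Finset.sum_const, smul_eq_mul, mul_one]
        omega
      rwa [h4] at h3
    · exact isHomogeneous_zero _ _ _
  · intro a ha
    by_contra hcon
    push Not at hcon
    obtain ⟨i0, hi0⟩ := hcon
    let f : ℤ →+* ZMod 2 := Int.castRingHom (ZMod 2)
    let b : Fin 13 → ZMod 2 := fun i => (a i : ZMod 2)
    have h1 : ((eval a (∑ S ∈ (univ : Finset (Fin 13)).powerset,
      if h : S.Nonempty then (∏ i ∈ S, X i) * X (S.min' h) ^ (13 - S.card) else 0) : ℤ) : ZMod 2)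
      = 0 := by
      rwa [ZMod.intCast_zmod_eq_zero_iff_dvd]
    have hb : ∀ i, b i * b i = b i := by
      intro i
      generalize b i = c
      revert c
      decide
    have hbp : ∀ i n, b i * b i ^ n = b i := by
      intro i n
      induction n with
      | zero => simp
      | succ n ih => rw [pow_succ, ← mul_assoc, ih, hb]
    have h2 : ((eval a (∑ S ∈ (univ : Finset (Fin 13)).powerset,
      if h : S.Nonempty then (∏ i ∈ S, X i) * X (S.min' h) ^ (13 - S.card) else 0) : ℤ) : ZMod 2)
      = ∑ S ∈ (univ : Finset (Fin 13)).powerset, (if S.Nonempty then ∏ i ∈ S, b i else 0) := by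
      rw [map_sum]
      push_cast
      apply Finset.sum_congr rfl
      intro S _
      split_ifs with h
      · rw [map_mul, map_prod, map_pow, eval_X]
        simp only [eval_X]
        push_cast
        have hm : S.min' h ∈ S := S.min'_mem h
        rw [← Finset.mul_prod_erase S _ hm]
        have := hbp (S.min' h) (13 - S.card)
        simp only [b] at this ⊢
        linear_combination (∏ x ∈ S.erase (S.min' h), ((a x : ZMod 2))) * this
      · simp
    have h3 : ∑ S ∈ (univ : Finset (Fin 13)).powerset, (if S.Nonempty then ∏ i ∈ S, b i else 0)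
      = ∑ S ∈ (univ : Finset (Fin 13)).powerset, ∏ i ∈ S, b i - 1 := by
      have : ∀ S ∈ (univ : Finset (Fin 13)).powerset, (if S.Nonempty then ∏ i ∈ S, b i else 0)
        = ∏ i ∈ S, b i - if S = ∅ then 1 else 0 := by
        intro S _
        by_cases h : S = ∅
        · subst h; simp
        · rw [if_pos (Finset.nonempty_iff_ne_empty.mpr h), if_neg h, sub_zero]
      rw [Finset.sum_congr rfl this, Finset.sum_sub_distrib, Finset.sum_ite_eq']
      simp
    rw [h2, h3, ← Finset.prod_one_add] at h1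
    have hbi : b i0 = 1 := by
      have h0 : b i0 ≠ 0 := by
        intro h
        exact hi0 ((ZMod.intCast_zmod_eq_zero_iff_dvd (a i0) 2).mp h)
      revert h0
      generalize b i0 = c
      revert c
      decide
    have h5 : ∏ i, (1 + b i) = 0 := by
      apply Finset.prod_eq_zero (Finset.mem_univ i0)
      rw [hbi]
      decide
    rw [h5] at h1
    exact absurd h1 (by decide)

abbrev II := (Fin 6 × Fin 27) ⊕ Fin 13

theorem F_exists : ∃ F : MvPolynomial II ℤ, F.IsHomogeneous 13 ∧
    ∀ a : II → ℤ, (2 ^ 13 : ℤ) ∣ eval a F → ∀ i, (2 : ℤ) ∣ a i := by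
  obtain ⟨G, hG, hG2⟩ := G_exists
  obtain ⟨N, hN, hN2⟩ := N_exists
  refine ⟨∑ j : Fin 6, C (4 ^ (j : ℕ)) * rename (fun i => Sum.inl (j, i)) G +
    C (2 ^ 12) * rename Sum.inr N, ?_, ?_⟩
  · apply IsHomogeneous.add
    · apply IsHomogeneous.sum
      intro j _
      exact (hG.rename_isHomogeneous).C_mul _
    · exact (hN.rename_isHomogeneous).C_mul _
  · intro a ha
    have hev : eval a (∑ j : Fin 6, C (4 ^ (j : ℕ)) * rename (fun i => Sum.inl (j, i)) G +
      C (2 ^ 12) * rename Sum.inr N) =
      ∑ j : Fin 6, 4 ^ (j : ℕ) * eval (fun i => a (Sum.inl (j, i))) G +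
        2 ^ 12 * eval (fun i => a (Sum.inr i)) N := by
      rw [map_add, map_sum, map_mul, eval_C, eval_rename]
      congr 1
      apply Finset.sum_congr rfl
      intro j _
      rw [map_mul, eval_C, eval_rename]
      rfl
    rw [hev] at ha
    set g : Fin 6 → ℤ := fun j => eval (fun i => a (Sum.inl (j, i))) G with hg
    set nn : ℤ := eval (fun i => a (Sum.inr i)) N with hnn
    have ha' : (8192 : ℤ) ∣ g 0 + 4 * g 1 + 16 * g 2 + 64 * g 3 + 256 * g 4 + 1024 * g 5
        + 4096 * nn := by
      have e : ∑ j : Fin 6, 4 ^ (j : ℕ) * g j + 2 ^ 12 * nn = g 0 + 4 * g 1 + 16 * g 2 + 64 * g 3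
          + 256 * g 4 + 1024 * g 5 + 4096 * nn := by
        simp only [Fin.sum_univ_succ, Fin.sum_univ_zero]
        simp
        ring
      rw [e] at ha
      norm_num at ha
      exact ha
    have key : ∀ j : Fin 6, (4 : ℤ) ∣ g j → (8192 : ℤ) ∣ g j := by
      intro j hj
      have h1 := hG2 _ hj
      choose b hb using h1
      have e : (fun i => a (Sum.inl (j, i))) = fun i => 2 * b i := by
        funext i; exact hb i
      simp only [hg]
      rw [e, hom_scale G 13 hG]
      norm_num
    have c0 : (4 : ℤ) ∣ g 0 := by omega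
    have d0 := key 0 c0
    have c1 : (4 : ℤ) ∣ g 1 := by omega
    have d1 := key 1 c1
    have c2 : (4 : ℤ) ∣ g 2 := by omega
    have d2 := key 2 c2
    have c3 : (4 : ℤ) ∣ g 3 := by omega
    have d3 := key 3 c3
    have c4 : (4 : ℤ) ∣ g 4 := by omega
    have d4 := key 4 c4
    have c5 : (4 : ℤ) ∣ g 5 := by omega
    have d5 := key 5 c5
    have cn : (2 : ℤ) ∣ nn := by omega
    have hN3 := hN2 _ cn
    have hall : ∀ j : Fin 6, (4 : ℤ) ∣ g j := by
      intro j
      fin_cases j
      · exact c0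
      · exact c1
      · exact c2
      · exact c3
      · exact c4
      · exact c5
    rintro (⟨j, i⟩ | i)
    · exact hG2 _ (hall j) i
    · exact hN3 i

theorem F_two_adic : ∃ F : MvPolynomial II ℚ_[2], F.IsHomogeneous 13 ∧
    ∀ x : II → ℚ_[2], eval x F = 0 → x = 0 := by
  obtain ⟨F, hF, hF2⟩ := F_exists
  refine ⟨MvPolynomial.map (Int.castRingHom ℚ_[2]) F, hF.map _, ?_⟩
  intro x hx
  by_contra hne
  -- choose the coordinate of maximal norm
  obtain ⟨i0, -, hi0⟩ := Finset.exists_max_image (univ : Finset II) (fun i => ‖x i‖) univ_nonempty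
  have hx0 : x i0 ≠ 0 := by
    intro h
    apply hne
    funext i
    have := hi0 i (mem_univ i)
    simp only [h, norm_zero] at this
    exact norm_le_zero_iff.mp this
  -- normalise
  let y : II → ℤ_[2] := fun i => ⟨(x i0)⁻¹ * x i, by
    rw [norm_mul, norm_inv, inv_mul_le_iff₀ (norm_pos_iff.mpr hx0), mul_one]
    exact hi0 i (mem_univ i)⟩
  have hy0 : y i0 = 1 := by
    apply Subtype.ext
    simp only [y]
    rw [inv_mul_cancel₀ hx0]
    rfl
  have hy : eval y (MvPolynomial.map (Int.castRingHom ℤ_[2]) F) = 0 := by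
    have h1 : ((eval y (MvPolynomial.map (Int.castRingHom ℤ_[2]) F) : ℤ_[2]) : ℚ_[2]) =
        eval (fun i => (x i0)⁻¹ * x i) (MvPolynomial.map (Int.castRingHom ℚ_[2]) F) := by
      have e1 : ((eval y (MvPolynomial.map (Int.castRingHom ℤ_[2]) F) : ℤ_[2]) : ℚ_[2]) =
          PadicInt.Coe.ringHom (eval y (MvPolynomial.map (Int.castRingHom ℤ_[2]) F)) := rfl
      rw [e1, eval_map, eval_map, hom_eval₂]
      congr 1
    rw [hom_scale _ 13 (hF.map _), hx, mul_zero] at h1
    apply Subtype.ext
    rw [h1]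
    rfl
  let θ : ℤ_[2] →+* ZMod (2 ^ 13) := PadicInt.toZModPow 13
  let a : II → ℤ := fun i => ((θ (y i)).val : ℤ)
  have ha : ∀ i, ((a i : ℤ) : ZMod (2 ^ 13)) = θ (y i) := by
    intro i
    simp only [a]
    rw [Int.cast_natCast, ZMod.natCast_zmod_val]
  have hdvd : (2 ^ 13 : ℤ) ∣ eval a F := by
    have h1 : θ (eval y (MvPolynomial.map (Int.castRingHom ℤ_[2]) F)) =
        ((eval a F : ℤ) : ZMod (2 ^ 13)) := by
      rw [eval_map, hom_eval₂]
      have e2 : ((eval a F : ℤ) : ZMod (2 ^ 13)) =
          (Int.castRingHom (ZMod (2 ^ 13))) (eval₂ (RingHom.id ℤ) a F) := rfl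
      rw [e2, hom_eval₂]
      congr 1
      · exact RingHom.ext_int _ _
      · funext i
        exact (ha i).symm
    rw [hy, map_zero] at h1
    have := (ZMod.intCast_zmod_eq_zero_iff_dvd (eval a F) (2 ^ 13)).mp h1.symm
    exact_mod_cast this
  have h2 := hF2 a hdvd i0
  have h3 : a i0 = 1 := by
    simp only [a, hy0, map_one]
    decide
  rw [h3] at h2
  norm_num at h2

end Final

end Pool.Agent.ArtinPrime
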